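import Pool.Agent.D0H11.GM.Stm

/-!
# Project GY (helper11): statements; Mathlib only. MP_f6c7cf_nt slot 4.

For almost every `(α, β) ∈ (0, ∞)²`, for infinitely many `N` at least `c N` odd `n < N` have at least `c √N`
quadruples `n = x² + y² + z² + 4 w²` for which `⌊α (2 ^ x + 2 ^ y) + β 2 ^ z⌋ + 1` is prime.

The method is that of project GM (`Pool.Agent.D0H11.GM.Stm`), whose `S_BTM`, `S_MOM`, `S_DENS` and `Sq` are used as they are.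
-/

set_option autoImplicit false

namespace Pool.Agent.D0H11.GY

open Finset MeasureTheory Filter

/-- `n = x² + y² + z² + 4 w²` -/
def nn (q : Fin 4 → ℕ) : ℕ := q 0 ^ 2 + q 1 ^ 2 + q 2 ^ 2 + 4 * q 3 ^ 2

/-- the quadruples: `M ≤ x, y, z, w < M + M / 2`, `n` odd; so `nn q < 16 M²` -/
def QQ (M : ℕ) : Finset (Fin 4 → ℕ) := (Fintype.piFinset fun _ => Ico M (M + M / 2)).filter fun q => Odd (nn q)

/-- `α (2 ^ x + 2 ^ y) + β 2 ^ z` -/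
noncomputable def LL (a : ℝ × ℝ) (q : Fin 4 → ℕ) : ℝ := a.1 * (2 ^ q 0 + 2 ^ q 1) + a.2 * 2 ^ q 2

/-- `⌊α (2 ^ x + 2 ^ y) + β 2 ^ z⌋ + 1` is prime -/
def PP (a : ℝ × ℝ) (q : Fin 4 → ℕ) : Prop := (⌊LL a q⌋₊ + 1).Prime

/-- `2 ^ M ≤ A ≤ 2 ^ (M + M / 2)` -/
def Rg (M : ℕ) (A : ℝ) : Prop := (2 : ℝ) ^ M ≤ A ∧ A ≤ 2 ^ (M + M / 2)

/-- 1. PU2 (uses `GM.S_BTM`; adaptation of `Pool.Agent.D0H17.GM.t_PU`).

Proof. By the symmetry `(α, A, A') ↔ (β, B, B')` let `A ≥ B`. The map `(α, β) ↦ (α A + β B, β) = (L, β)` has determinant `A`. By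
Fubini the measure of the image of the set is the integral over the `L` with `⌊L⌋ + 1` prime, in an interval of length
`2 r (A + B) ≤ 4 r A`, of the measure of the `β` in an interval of length `≤ 2 r` with `⌊L'⌋ + 1` prime, where
`L' = (A' / A) L + κ β`, `κ = (A B' - A' B) / A`, `|κ| ≥ 2 ^ (2 M) / 2 ^ (M + M / 2) ≥ 2 ^ (M / 2)`. -/
def S_PU2 : Prop := ∃ C : ℝ, 0 < C ∧ ∀ (c : ℝ × ℝ) (r : ℝ), Pool.Agent.D0H11.GM.Sq c r → ∀ᶠ M : ℕ in atTop,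
  ∀ A B A' B' : ℝ, Rg M A → Rg M B → Rg M A' → Rg M B' → (2 : ℝ) ^ (2 * M) ≤ |A * B' - A' * B| →
    volume {a : ℝ × ℝ | a ∈ Metric.closedBall c r ∧ (⌊a.1 * A + a.2 * B⌋₊ + 1).Prime ∧
      (⌊a.1 * A' + a.2 * B'⌋₊ + 1).Prime} ≤ ENNReal.ofReal (C * r ^ 2 / (M : ℝ) ^ 2)

/-- 2. S1 (uses `GM.S_BTM`; the second statement of `GM.S_SU`): one quadruple, upper bound. -/
def S_S1 : Prop := ∃ C : ℝ, 0 < C ∧ ∀ (c : ℝ × ℝ) (r : ℝ), Pool.Agent.D0H11.GM.Sq c r → ∀ᶠ M : ℕ in atTop,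
  ∀ A B : ℝ, Rg M A → Rg M B →
    volume {a : ℝ × ℝ | a ∈ Metric.closedBall c r ∧ (⌊a.1 * A + a.2 * B⌋₊ + 1).Prime} ≤ ENNReal.ofReal (C * r ^ 2 / M)

/-- 3. ONE2 (adaptation of `Pool.Agent.D0H8.GM.t_ONE`): one quadruple, lower bound. -/
def S_ONE2 : Prop := ∃ c₀ : ℝ, 0 < c₀ ∧ ∀ (c : ℝ × ℝ) (r : ℝ), Pool.Agent.D0H11.GM.Sq c r → ∀ᶠ M : ℕ in atTop,
  ∀ A B : ℝ, Rg M A → Rg M B →
    ENNReal.ofReal (c₀ * r ^ 2 / M) ≤ volume {a : ℝ × ℝ | a ∈ Metric.closedBall c r ∧ (⌊a.1 * A + a.2 * B⌋₊ + 1).Prime}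

open Classical in
/-- 4. CNT2 (adaptation of `Pool.Agent.D0H30.GM.t_CNT`): the numbers of the quadruples and of the pairs.

Proof. (i) `n` is odd if and only if `x + y + z` is. (ii) `Pool.Agent.D0H87.TW.t_R4` with the injection
`q ↦ (x, y, z, 2 w)`. (iii) If `(2^x + 2^y) 2^z' = (2^x' + 2^y') 2^z` then `{x + z', y + z'} = {x' + z, y' + z}` as multisets (binary
expansion), so `q`, `z'` and one bit (which of the two orders) determine `x'`, `y'`, `z'` and, as `n = n'`, also `w'`: at most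
`M⁴ · M · 2` pairs. -/
def S_CNT2 : Prop := ∃ C : ℝ, 0 < C ∧
  (∀ M : ℕ, 4 ≤ M → (M : ℝ) ^ 4 ≤ C * ((QQ M).card : ℝ)) ∧
  (∀ M : ℕ, 2 ≤ M → ((((QQ M ×ˢ QQ M).filter fun p => nn p.1 = nn p.2).card : ℕ) : ℝ) ≤ C * (M : ℝ) ^ 6) ∧
  (∀ M : ℕ, 2 ≤ M → ((((QQ M ×ˢ QQ M).filter fun p => nn p.1 = nn p.2 ∧
      (2 ^ p.1 0 + 2 ^ p.1 1) * 2 ^ p.2 2 = (2 ^ p.2 0 + 2 ^ p.2 1) * 2 ^ p.1 2).card : ℕ) : ℝ) ≤ C * (M : ℝ) ^ 5)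

end Pool.Agent.D0H11.GY
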