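import Pool.Agent.D0H11.GY.Stm

/-! # Project GY (helper11): assembly -/

set_option autoImplicit false

namespace Pool.Agent.D0H11.GY

open Pool.Agent.D0H11.GM (Sq)

open Finset MeasureTheory Filter

/-- the parameters for which the number of the quadruple is prime -/
def Ps (q : Fin 4 → ℕ) : Set (ℝ × ℝ) := {a | PP a q}

theorem LL_cont (q : Fin 4 → ℕ) : Continuous fun a : ℝ × ℝ => LL a q := by
  unfold LL
  fun_prop

theorem Ps_meas (q : Fin 4 → ℕ) : MeasurableSet (Ps q) := by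
  have h : Measurable fun a : ℝ × ℝ => ⌊LL a q⌋₊ := Nat.measurable_floor.comp (LL_cont q).measurable
  have e : Ps q = (fun a : ℝ × ℝ => ⌊LL a q⌋₊) ⁻¹' {m : ℕ | (m + 1).Prime} := rfl
  rw [e]
  exact h (MeasurableSet.of_discrete)

/-- the indicator -/
noncomputable def ind (q : Fin 4 → ℕ) (a : ℝ × ℝ) : ℝ := (Ps q).indicator (fun _ => (1 : ℝ)) a

theorem ind_meas (q : Fin 4 → ℕ) : Measurable (ind q) := measurable_const.indicator (Ps_meas q)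

theorem ind_nonneg (q : Fin 4 → ℕ) (a : ℝ × ℝ) : 0 ≤ ind q a := by
  unfold ind
  exact Set.indicator_nonneg (fun _ _ => zero_le_one) a

theorem ind_le (q : Fin 4 → ℕ) (a : ℝ × ℝ) : ind q a ≤ 1 := by
  unfold ind
  exact Set.indicator_le_self' (fun _ _ => zero_le_one) a

theorem ind_one (q : Fin 4 → ℕ) (a : ℝ × ℝ) (h : PP a q) : ind q a = 1 := by
  unfold ind
  exact Set.indicator_of_mem (s := Ps q) h _

theorem ind_zero (q : Fin 4 → ℕ) (a : ℝ × ℝ) (h : ¬ PP a q) : ind q a = 0 := by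
  unfold ind
  exact Set.indicator_of_notMem (s := Ps q) h _

/-- the number of the quadruples of `n` with a prime number -/
noncomputable def SS (M n : ℕ) (a : ℝ × ℝ) : ℝ := ∑ q ∈ (QQ M).filter (fun q => nn q = n), ind q a

theorem nn_lt {M : ℕ} {q : Fin 4 → ℕ} (hq : q ∈ QQ M) : nn q < 16 * M ^ 2 := by
  unfold QQ at hq
  rw [mem_filter, Fintype.mem_piFinset] at hq
  have h := hq.1
  have h0 := mem_Ico.1 (h 0)
  have h1 := mem_Ico.1 (h 1)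
  have h2 := mem_Ico.1 (h 2)
  have h3 := mem_Ico.1 (h 3)
  have k : ∀ x : ℕ, M ≤ x → x < M + M / 2 → 4 * x ^ 2 < 9 * M ^ 2 := by
    intro x _ hx
    have : 2 * x < 3 * M := by omega
    nlinarith
  have k0 := k _ h0.1 h0.2
  have k1 := k _ h1.1 h1.2
  have k2 := k _ h2.1 h2.2
  have k3 := k _ h3.1 h3.2
  unfold nn
  omega

theorem rgs {M : ℕ} {q : Fin 4 → ℕ} (hq : q ∈ QQ M) : Rg M (2 ^ q 0 + 2 ^ q 1) ∧ Rg M (2 ^ q 2) := by
  unfold QQ at hq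
  rw [mem_filter, Fintype.mem_piFinset] at hq
  have h := hq.1
  have h0 := mem_Ico.1 (h 0)
  have h1 := mem_Ico.1 (h 1)
  have h2 := mem_Ico.1 (h 2)
  have u : ∀ x : ℕ, M ≤ x → x < M + M / 2 → (2 : ℝ) ^ M ≤ 2 ^ x ∧ (2 : ℝ) ^ x * 2 ≤ 2 ^ (M + M / 2) := by
    intro x hx1 hx2
    refine ⟨pow_le_pow_right₀ (by norm_num) hx1, ?_⟩
    rw [← pow_succ]
    exact pow_le_pow_right₀ (by norm_num) (by omega)
  obtain ⟨a0, b0⟩ := u _ h0.1 h0.2
  obtain ⟨a1, b1⟩ := u _ h1.1 h1.2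
  obtain ⟨a2, b2⟩ := u _ h2.1 h2.2
  have p : (0 : ℝ) < 2 ^ M := by positivity
  unfold Rg
  exact ⟨⟨by linarith, by linarith⟩, ⟨by linarith, by linarith⟩⟩

theorem det {M : ℕ} {q q' : Fin 4 → ℕ} (hq : q ∈ QQ M) (hq' : q' ∈ QQ M)
    (hd : (2 ^ q 0 + 2 ^ q 1) * 2 ^ q' 2 ≠ (2 ^ q' 0 + 2 ^ q' 1) * 2 ^ q 2) :
    (2 : ℝ) ^ (2 * M) ≤ |(2 ^ q 0 + 2 ^ q 1) * 2 ^ q' 2 - (2 ^ q' 0 + 2 ^ q' 1) * 2 ^ q 2| := by
  unfold QQ at hq hq'
  rw [mem_filter, Fintype.mem_piFinset] at hq hq'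
  have u : ∀ x : ℕ, M ≤ x → ∃ k : ℤ, (2 : ℤ) ^ x = 2 ^ M * k := fun x hx => by
    obtain ⟨k, hk⟩ := pow_dvd_pow (2 : ℤ) hx
    exact ⟨k, hk⟩
  obtain ⟨k0, e0⟩ := u _ (mem_Ico.1 (hq.1 0)).1
  obtain ⟨k1, e1⟩ := u _ (mem_Ico.1 (hq.1 1)).1
  obtain ⟨k2, e2⟩ := u _ (mem_Ico.1 (hq.1 2)).1
  obtain ⟨l0, f0⟩ := u _ (mem_Ico.1 (hq'.1 0)).1
  obtain ⟨l1, f1⟩ := u _ (mem_Ico.1 (hq'.1 1)).1
  obtain ⟨l2, f2⟩ := u _ (mem_Ico.1 (hq'.1 2)).1
  obtain ⟨D, hD⟩ : ∃ D : ℤ, D = (2 ^ q 0 + 2 ^ q 1) * 2 ^ q' 2 - (2 ^ q' 0 + 2 ^ q' 1) * 2 ^ q 2 := ⟨_, rfl⟩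
  have hD0 : D ≠ 0 := by
    intro h
    apply hd
    have h1 : ((2 : ℤ) ^ q 0 + 2 ^ q 1) * 2 ^ q' 2 = (2 ^ q' 0 + 2 ^ q' 1) * 2 ^ q 2 := by linarith
    exact_mod_cast h1
  have hdvd : ∃ k : ℤ, D = 2 ^ (2 * M) * k := by
    refine ⟨(k0 + k1) * l2 - (l0 + l1) * k2, ?_⟩
    rw [hD, e0, e1, e2, f0, f1, f2, two_mul, pow_add]
    ring
  obtain ⟨k, hk⟩ := hdvd
  have hk0 : k ≠ 0 := by
    rintro rfl
    exact hD0 (by rw [hk, mul_zero])
  have h1 : (2 : ℤ) ^ (2 * M) ≤ |D| := by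
    rw [hk, abs_mul, abs_of_pos (show (0 : ℤ) < 2 ^ (2 * M) by positivity)]
    have : 1 ≤ |k| := Int.one_le_abs hk0
    nlinarith [show (0 : ℤ) < 2 ^ (2 * M) by positivity]
  have h2 : (2 : ℝ) ^ (2 * M) ≤ |(D : ℝ)| := by
    have : (((2 : ℤ) ^ (2 * M) : ℤ) : ℝ) ≤ ((|D| : ℤ) : ℝ) := by exact_mod_cast h1
    push_cast at this
    exact this
  rw [hD] at h2
  push_cast at h2
  exact h2

theorem sum1 (M : ℕ) (a : ℝ × ℝ) : ∑ n ∈ range (16 * M ^ 2), SS M n a = ∑ q ∈ QQ M, ind q a := by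
  unfold SS
  exact Finset.sum_fiberwise_of_maps_to (fun q hq => mem_range.2 (nn_lt hq)) _

theorem sum2 (M : ℕ) (a : ℝ × ℝ) : ∑ n ∈ range (16 * M ^ 2), SS M n a ^ 2 =
    ∑ p ∈ (QQ M ×ˢ QQ M).filter (fun p => nn p.1 = nn p.2), ind p.1 a * ind p.2 a := by
  have e : ∀ n, SS M n a ^ 2 = ∑ p ∈ ((QQ M ×ˢ QQ M).filter (fun p => nn p.1 = nn p.2)).filter
      (fun p => nn p.1 = n), ind p.1 a * ind p.2 a := by
    intro n
    unfold SS
    rw [sq, Finset.sum_mul_sum, ← Finset.sum_product']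
    refine Finset.sum_congr ?_ fun _ _ => rfl
    ext p
    simp only [mem_filter, mem_product]
    constructor
    · rintro ⟨⟨h1, h2⟩, h3, h4⟩
      exact ⟨⟨⟨h1, h3⟩, by rw [h2, h4]⟩, h2⟩
    · rintro ⟨⟨⟨h1, h2⟩, h3⟩, h4⟩
      exact ⟨⟨h1, h4⟩, h2, by rw [← h3, h4]⟩
  simp only [e]
  exact Finset.sum_fiberwise_of_maps_to (fun p hp => mem_range.2 (nn_lt (mem_product.1 (mem_filter.1 hp).1).1)) _

theorem SS_meas (M n : ℕ) : Measurable (SS M n) := by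
  unfold SS
  exact Finset.measurable_sum _ fun q _ => ind_meas q

theorem SS_bd (M n : ℕ) (a : ℝ × ℝ) : 0 ≤ SS M n a ∧ SS M n a ≤ (QQ M).card := by
  unfold SS
  refine ⟨Finset.sum_nonneg fun q _ => ind_nonneg q a, ?_⟩
  refine (Finset.sum_le_sum_of_subset_of_nonneg (Finset.filter_subset _ _) fun q _ _ => ind_nonneg q a).trans ?_
  calc ∑ q ∈ QQ M, ind q a ≤ ∑ _q ∈ QQ M, (1 : ℝ) := Finset.sum_le_sum fun q _ => ind_le q a
    _ = _ := by rw [Finset.sum_const, nsmul_eq_mul, mul_one]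

theorem int1 (J : Set (ℝ × ℝ)) (q : Fin 4 → ℕ) : ∫ a in J, ind q a = (volume {a : ℝ × ℝ | a ∈ J ∧ PP a q}).toReal := by
  have e : ind q = (Ps q).indicator 1 := rfl
  rw [e, integral_indicator_one (Ps_meas q), measureReal_def, Measure.restrict_apply (Ps_meas q)]
  congr 2
  ext a
  simp only [Ps, Set.mem_inter_iff, Set.mem_ofPred_eq]
  exact and_comm

theorem int2 (J : Set (ℝ × ℝ)) (q q' : Fin 4 → ℕ) :
    ∫ a in J, ind q a * ind q' a = (volume {a : ℝ × ℝ | a ∈ J ∧ PP a q ∧ PP a q'}).toReal := by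
  have e : (fun a => ind q a * ind q' a) = (Ps q ∩ Ps q').indicator 1 := by
    funext a
    by_cases h1 : PP a q
    · by_cases h2 : PP a q'
      · rw [ind_one _ _ h1, ind_one _ _ h2, mul_one, Set.indicator_of_mem (show a ∈ Ps q ∩ Ps q' from ⟨h1, h2⟩)]
        rfl
      · rw [ind_zero _ _ h2, mul_zero, Set.indicator_of_notMem (show a ∉ Ps q ∩ Ps q' from fun h => h2 h.2)]
    · rw [ind_zero _ _ h1, zero_mul, Set.indicator_of_notMem (show a ∉ Ps q ∩ Ps q' from fun h => h1 h.1)]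
  have hm := (Ps_meas q).inter (Ps_meas q')
  rw [e, integral_indicator_one hm, measureReal_def, Measure.restrict_apply hm]
  congr 2
  ext a
  simp only [Ps, Set.mem_inter_iff, Set.mem_ofPred_eq]
  tauto

theorem vol_ball (c : ℝ × ℝ) (r : ℝ) (hr : 0 < r) : volume (Metric.closedBall c r) = ENNReal.ofReal (4 * r ^ 2) := by
  have e : Metric.closedBall c r = Metric.closedBall c.1 r ×ˢ Metric.closedBall c.2 r := by
    rw [closedBall_prod_same]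
  rw [e, Measure.volume_eq_prod, Measure.prod_prod, Real.volume_closedBall, Real.volume_closedBall,
    ← ENNReal.ofReal_mul (by positivity)]
  congr 1
  ring

theorem vol_ball' (c : ℝ × ℝ) (r : ℝ) (hr : 0 < r) : (volume (Metric.closedBall c r)).toReal = 4 * r ^ 2 := by
  rw [vol_ball c r hr, ENNReal.toReal_ofReal (by positivity)]

theorem ind_int (J : Set (ℝ × ℝ)) (hJ : volume J ≠ ⊤) (q : Fin 4 → ℕ) : IntegrableOn (ind q) J := by
  refine Measure.integrableOn_of_bounded hJ (ind_meas q).aestronglyMeasurable (M := 1) ?_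
  refine Filter.Eventually.of_forall fun a => ?_
  rw [Real.norm_eq_abs, abs_of_nonneg (ind_nonneg q a)]
  exact ind_le q a

theorem ind_int2 (J : Set (ℝ × ℝ)) (hJ : volume J ≠ ⊤) (q q' : Fin 4 → ℕ) :
    IntegrableOn (fun a => ind q a * ind q' a) J := by
  refine Measure.integrableOn_of_bounded hJ ((ind_meas q).mul (ind_meas q')).aestronglyMeasurable (M := 1) ?_
  refine Filter.Eventually.of_forall fun a => ?_
  rw [Real.norm_eq_abs, abs_of_nonneg (mul_nonneg (ind_nonneg q a) (ind_nonneg q' a))]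
  exact mul_le_one₀ (ind_le q a) (ind_nonneg q' a) (ind_le q' a)

/-- the first moment -/
theorem first (hC : S_CNT2) (hO : S_ONE2) : ∃ c : ℝ, 0 < c ∧ ∀ (x : ℝ × ℝ) (r : ℝ), Sq x r → ∀ᶠ M : ℕ in atTop,
    c * (M : ℝ) ^ 3 * (volume (Metric.closedBall x r)).toReal ≤
      ∫ a in Metric.closedBall x r, ∑ n ∈ range (16 * M ^ 2), SS M n a := by
  obtain ⟨C, hC0, h1, -, -⟩ := hC
  obtain ⟨c₀, hc₀, h2⟩ := hO
  refine ⟨c₀ / (4 * C), by positivity, fun x r hx => ?_⟩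
  filter_upwards [h2 x r hx, eventually_ge_atTop 4] with M hM hM2
  have hr := hx.1
  have hM0 : (0 : ℝ) < M := by
    have : 0 < M := by omega
    exact_mod_cast this
  have hfin : volume (Metric.closedBall x r) ≠ ⊤ := by
    rw [vol_ball x r hr]
    exact ENNReal.ofReal_ne_top
  simp only [sum1]
  rw [integral_finsetSum _ fun q _ => ind_int _ hfin q, vol_ball' x r hr]
  have h3 : ∀ q ∈ QQ M, c₀ * r ^ 2 / M ≤ ∫ a in Metric.closedBall x r, ind q a := by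
    intro q hq
    rw [int1]
    have h4 : ENNReal.ofReal (c₀ * r ^ 2 / M) ≤ volume {a : ℝ × ℝ | a ∈ Metric.closedBall x r ∧ PP a q} :=
      hM _ _ (rgs hq).1 (rgs hq).2
    have h5 : volume {a : ℝ × ℝ | a ∈ Metric.closedBall x r ∧ PP a q} ≠ ⊤ :=
      ne_top_of_le_ne_top hfin (measure_mono fun a ha => ha.1)
    rw [← ENNReal.toReal_ofReal (show 0 ≤ c₀ * r ^ 2 / M by positivity)]
    exact ENNReal.toReal_mono h5 h4
  have h6 : (QQ M).card * (c₀ * r ^ 2 / M) ≤ ∑ q ∈ QQ M, ∫ a in Metric.closedBall x r, ind q a := by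
    rw [← nsmul_eq_mul]
    exact Finset.card_nsmul_le_sum _ _ _ h3
  refine le_trans ?_ h6
  have h7 := h1 M hM2
  calc c₀ / (4 * C) * (M : ℝ) ^ 3 * (4 * r ^ 2) = (M : ℝ) ^ 4 / C * (c₀ * r ^ 2 / M) := by
        field_simp
    _ ≤ _ := mul_le_mul_of_nonneg_right (by
        rw [div_le_iff₀ hC0]
        linarith) (by positivity)

open Classical in
/-- the second moment -/
theorem second (hC : S_CNT2) (hP : S_PU2) (hS : S_S1) : ∃ C : ℝ, 0 < C ∧ ∀ (x : ℝ × ℝ) (r : ℝ), Sq x r → ∀ᶠ M : ℕ in atTop,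
    ∫ a in Metric.closedBall x r, ∑ n ∈ range (16 * M ^ 2), SS M n a ^ 2 ≤
      C * (M : ℝ) ^ 4 * (volume (Metric.closedBall x r)).toReal := by
  obtain ⟨C3, hC3, -, h2, h3⟩ := hC
  obtain ⟨C1, hC1, hP⟩ := hP
  obtain ⟨C2, hC2, hS⟩ := hS
  refine ⟨(C1 * C3 + C2 * C3) / 4, by positivity, fun x r hx => ?_⟩
  filter_upwards [hP x r hx, hS x r hx, eventually_ge_atTop 2] with M g1 g2 hM2
  have hr := hx.1
  have hM0 : (0 : ℝ) < M := by
    have : 0 < M := by omega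
    exact_mod_cast this
  have hfin : volume (Metric.closedBall x r) ≠ ⊤ := by
    rw [vol_ball x r hr]
    exact ENNReal.ofReal_ne_top
  simp only [sum2]
  have e0 : ∫ a in Metric.closedBall x r, ∑ p ∈ (QQ M ×ˢ QQ M).filter (fun p => nn p.1 = nn p.2), ind p.1 a * ind p.2 a =
      ∑ p ∈ (QQ M ×ˢ QQ M).filter (fun p => nn p.1 = nn p.2), ∫ a in Metric.closedBall x r, ind p.1 a * ind p.2 a :=
    integral_finsetSum _ fun (p : (Fin 4 → ℕ) × (Fin 4 → ℕ)) _ => ind_int2 _ hfin p.1 p.2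
  rw [e0, vol_ball' x r hr]
  simp only [int2]
  -- the two kinds of pairs
  obtain ⟨vol, hvol⟩ : ∃ vol : (Fin 4 → ℕ) × (Fin 4 → ℕ) → ℝ, vol = fun p =>
    (volume {a : ℝ × ℝ | a ∈ Metric.closedBall x r ∧ PP a p.1 ∧ PP a p.2}).toReal := ⟨_, rfl⟩
  obtain ⟨T, hT⟩ : ∃ T, T = (QQ M ×ˢ QQ M).filter (fun p => nn p.1 = nn p.2) := ⟨_, rfl⟩
  obtain ⟨T3, hT3⟩ : ∃ T3 : Finset ((Fin 4 → ℕ) × (Fin 4 → ℕ)), T3 = (QQ M ×ˢ QQ M).filter
    fun p => nn p.1 = nn p.2 ∧ (2 ^ p.1 0 + 2 ^ p.1 1) * 2 ^ p.2 2 = (2 ^ p.2 0 + 2 ^ p.2 1) * 2 ^ p.1 2 := ⟨_, rfl⟩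
  have hle : ∀ p ∈ T, vol p ≤ C1 * r ^ 2 / (M : ℝ) ^ 2 + (if p ∈ T3 then C2 * r ^ 2 / (M : ℝ) else 0) := by
    intro p hp
    rw [hT, mem_filter, mem_product] at hp
    obtain ⟨⟨hp1, hp2⟩, hpn⟩ := hp
    have t1 : 0 ≤ C1 * r ^ 2 / (M : ℝ) ^ 2 := by positivity
    have t3 : 0 ≤ C2 * r ^ 2 / (M : ℝ) := by positivity
    by_cases hd : (2 ^ p.1 0 + 2 ^ p.1 1) * 2 ^ p.2 2 = (2 ^ p.2 0 + 2 ^ p.2 1) * 2 ^ p.1 2
    · have hmem : p ∈ T3 := by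
        rw [hT3]
        simp only [mem_filter, mem_product]
        exact ⟨⟨hp1, hp2⟩, hpn, hd⟩
      have h4 : vol p ≤ C2 * r ^ 2 / M := by
        rw [hvol]
        have h5 : volume {a : ℝ × ℝ | a ∈ Metric.closedBall x r ∧ PP a p.1} ≤ ENNReal.ofReal (C2 * r ^ 2 / M) :=
          g2 _ _ (rgs hp1).1 (rgs hp1).2
        have h6 : volume {a : ℝ × ℝ | a ∈ Metric.closedBall x r ∧ PP a p.1 ∧ PP a p.2} ≤
            ENNReal.ofReal (C2 * r ^ 2 / M) :=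
          (measure_mono (show {a : ℝ × ℝ | a ∈ Metric.closedBall x r ∧ PP a p.1 ∧ PP a p.2} ⊆
            {a : ℝ × ℝ | a ∈ Metric.closedBall x r ∧ PP a p.1} from fun a ha => ⟨ha.1, ha.2.1⟩)).trans h5
        exact ENNReal.toReal_le_of_le_ofReal t3 h6
      rw [if_pos hmem]
      linarith
    · have h4 : vol p ≤ C1 * r ^ 2 / (M : ℝ) ^ 2 := by
        rw [hvol]
        exact ENNReal.toReal_le_of_le_ofReal t1 (g1 _ _ _ _ (rgs hp1).1 (rgs hp1).2 (rgs hp2).1 (rgs hp2).2 (det hp1 hp2 hd))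
      have i3 : 0 ≤ (if p ∈ T3 then C2 * r ^ 2 / (M : ℝ) else 0) := by
        split_ifs
        · exact t3
        · exact le_rfl
      linarith
  have hsum : ∑ p ∈ T, vol p ≤ T.card * (C1 * r ^ 2 / (M : ℝ) ^ 2) + T3.card * (C2 * r ^ 2 / M) := by
    refine (Finset.sum_le_sum hle).trans ?_
    rw [Finset.sum_add_distrib, Finset.sum_const, nsmul_eq_mul]
    have hsub : T3 ⊆ T := by
      intro p hp
      rw [hT3] at hp
      rw [hT]
      simp only [mem_filter] at hp ⊢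
      exact ⟨hp.1, hp.2.1⟩
    rw [Finset.sum_ite_mem, Finset.inter_eq_right.2 hsub, Finset.sum_const, nsmul_eq_mul]
  have hTc : (T.card : ℝ) ≤ C3 * (M : ℝ) ^ 6 := by
    rw [hT]
    convert h2 M hM2
  have hT3c : (T3.card : ℝ) ≤ C3 * (M : ℝ) ^ 5 := by
    rw [hT3]
    convert h3 M hM2
  have a1 : T.card * (C1 * r ^ 2 / (M : ℝ) ^ 2) ≤ C1 * C3 * r ^ 2 * (M : ℝ) ^ 4 := by
    calc T.card * (C1 * r ^ 2 / (M : ℝ) ^ 2) ≤ (C3 * (M : ℝ) ^ 6) * (C1 * r ^ 2 / (M : ℝ) ^ 2) :=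
          mul_le_mul_of_nonneg_right hTc (by positivity)
      _ = _ := by
          field_simp
  have a3 : T3.card * (C2 * r ^ 2 / M) ≤ C2 * C3 * r ^ 2 * (M : ℝ) ^ 4 := by
    calc T3.card * (C2 * r ^ 2 / M) ≤ (C3 * (M : ℝ) ^ 5) * (C2 * r ^ 2 / M) :=
          mul_le_mul_of_nonneg_right hT3c (by positivity)
      _ = _ := by
          field_simp
  have hfinal : ∑ p ∈ T, vol p ≤ (C1 * C3 + C2 * C3) / 4 * (M : ℝ) ^ 4 * (4 * r ^ 2) := by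
    refine hsum.trans ?_
    have : (C1 * C3 + C2 * C3) / 4 * (M : ℝ) ^ 4 * (4 * r ^ 2) = C1 * C3 * r ^ 2 * (M : ℝ) ^ 4 +
        C2 * C3 * r ^ 2 * (M : ℝ) ^ 4 := by ring
    rw [this]
    linarith
  rw [hvol, hT] at hfinal
  exact hfinal

end Pool.Agent.D0H11.GY
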